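import Pool.Agent.Helper64.CT.Stmts

/-! # The position lemma -/

set_option autoImplicit false

namespace Pool.Agent.Helper64.CT

open Pool.Agent.Helper64.HG (Ovl Model Circ IC HellyCircle Far)

theorem pos_disj {V : Type} (G : SimpleGraph V) (T : Set V) (l r : V → ℝ) (τ : V → Prop)
    (hM : MOn G T l r)
    (hC : ∀ y ∈ T, ∀ y' ∈ T, y' ∈ Far G y → (τ y ↔ Ins l r y y') ∨ (τ y' ↔ Ins l r y' y))
    (y y' : V) (hy : y ∈ T) (hy' : y' ∈ T) (h1 : τ y) (h2 : τ y') : l y' < r y := by
  by_contra hlt
  rw [not_lt] at hlt
  have h3 : r y < l y' := lt_of_le_of_ne hlt (Ne.symm (hM.ne y' hy' y hy))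
  have h4 := hM.lt y hy
  have h5 := hM.lt y' hy'
  have hne : y' ≠ y := by
    rintro rfl
    linarith
  have hna : ¬ G.Adj y y' := by
    rw [hM.adj y hy y' hy']
    intro h
    rcases h with ⟨h6, h7, h8⟩ | ⟨h6, h7, h8⟩ <;> linarith
  rcases hC y hy y' hy' ⟨hne, hna⟩ with h | h
  · have h6 := h.1 h1
    linarith [h6.2]
  · have h6 := h.1 h2
    linarith [h6.1]

theorem pos_nest {V : Type} (G : SimpleGraph V) (T : Set V) (l r : V → ℝ) (τ : V → Prop)
    (hM : MOn G T l r)
    (hC : ∀ y ∈ T, ∀ y' ∈ T, y' ∈ Far G y → (τ y ↔ Ins l r y y') ∨ (τ y' ↔ Ins l r y' y))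
    (y y' : V) (hy : y ∈ T) (hy' : y' ∈ T) (h1 : Ins l r y y') (h2 : τ y') : τ y := by
  have h3 := h1.1
  have h4 := h1.2
  have hne : y' ≠ y := by
    rintro rfl
    linarith
  have hna : ¬ G.Adj y y' := by
    rw [hM.adj y hy y' hy']
    intro h
    rcases h with ⟨h6, h7, h8⟩ | ⟨h6, h7, h8⟩ <;> linarith
  rcases hC y hy y' hy' ⟨hne, hna⟩ with h | h
  · exact h.2 h1
  · have h6 := h.1 h2
    linarith [h6.1]

theorem pos_mono (f : ℕ → ℝ) (m : ℕ) (h : ∀ i < m, f i < f (i + 1)) :
    ∀ i j, i < j → j ≤ m → f i < f j := by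
  intro i j hij hj
  induction j with
  | zero => omega
  | succ j ih =>
    rcases Nat.lt_or_ge i j with h1 | h1
    · exact lt_trans (ih h1 (by omega)) (h j (by omega))
    · have h2 : i = j := by omega
      subst h2
      exact h i (by omega)

theorem pos_IC {V : Type} (G : SimpleGraph V) (n : ℕ) (z : ℕ → V) (hn : 3 ≤ n)
    (hinj : ∀ i j, i < j → j < n → z i ≠ z j)
    (hadj : ∀ i j, i < j → j < n →
      (G.Adj (z i) (z j) ↔ (j = i + 1 ∨ (i = 0 ∧ j + 1 = n)))) :
    IC G ((List.range n).map z) := by
  refine ⟨?_, ?_, ?_⟩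
  · simpa using hn
  · refine List.Nodup.map_on ?_ List.nodup_range
    intro x hx y hy hxy
    rw [List.mem_range] at hx hy
    rcases Nat.lt_trichotomy x y with h | h | h
    · exact absurd hxy (hinj x y h hy)
    · exact h
    · exact absurd hxy.symm (hinj y x h hx)
  · intro i j hi hj hij
    simp only [List.length_map, List.length_range] at hi hj ⊢
    simp only [List.getElem_map, List.getElem_range]
    exact hadj i j hij hj

theorem st_POS (h1 : ST_CHN) : ST_POS := by
  intro V _ G T l r τ hTF hM hC
  by_cases hA : ∃ t : ℝ, (∀ y ∈ T, t ≠ l y ∧ t ≠ r y) ∧ ∀ y ∈ T, ((l y < t ∧ t < r y) ↔ τ y)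
  · exact Or.inl hA
  right
  have hB : ∀ t : ℝ, (∀ y ∈ T, t ≠ l y ∧ t ≠ r y) →
      ∃ y ∈ T, ¬ ((l y < t ∧ t < r y) ↔ τ y) := by
    intro t ht
    by_contra hcon
    apply hA
    refine ⟨t, ht, fun y hy => ?_⟩
    by_contra h
    exact hcon ⟨y, hy, h⟩
  -- the sets
  set T1 : Set V := {y | y ∈ T ∧ τ y} with hT1
  have hfin : T1.Finite := Set.toFinite T1
  have hne : T1.Nonempty := by
    by_contra hemp
    rw [Set.not_nonempty_iff_eq_empty] at hemp
    obtain ⟨M, hM1⟩ := (Set.toFinite (Set.range r)).bddAbove
    have hM2 : ∀ v, r v ≤ M := fun v => hM1 (Set.mem_range_self v)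
    obtain ⟨y, hy, hy2⟩ := hB (M + 1) (by
      intro y hy
      have h2 := hM.lt y hy
      have h3 := hM2 y
      constructor
      · intro h
        linarith
      · intro h
        linarith)
    apply hy2
    constructor
    · intro h
      have := hM2 y
      linarith [h.2]
    · intro h
      have : y ∈ T1 := ⟨hy, h⟩
      rw [hemp] at this
      exact absurd this (Set.notMem_empty y)
  obtain ⟨ya, hya, hyamax⟩ := Set.exists_max_image T1 l hfin hne
  obtain ⟨yb, hyb, hybmin⟩ := Set.exists_min_image T1 r hfin hne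
  have hyaT : ya ∈ T := hya.1
  have hyaτ : τ ya := hya.2
  have hybT : yb ∈ T := hyb.1
  have hybτ : τ yb := hyb.2
  have hLR : l ya < r yb := pos_disj G T l r τ hM hC yb ya hybT hyaT hybτ hyaτ
  obtain ⟨m, y, hyF, hy0, hch, hgap, hym⟩ := h1 V {y | y ∈ T ∧ ¬ τ y} l r (l ya) (r yb) hLR
    (fun v hv => hM.lt v hv.1) (fun u hu v hv h => hM.injl u hu.1 v hv.1 h)
    (fun u hu v hv h => hM.injr u hu.1 v hv.1 h) (fun u hu v hv => hM.ne u hu.1 v hv.1)
    (by
      intro v hv
      refine ⟨?_, ?_, ?_, ?_⟩
      · intro h
        have h2 := hM.injl v hv.1 ya hyaT h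
        exact hv.2 (by rw [h2]; exact hyaτ)
      · intro h
        exact hM.ne ya hyaT v hv.1 h.symm
      · intro h
        exact hM.ne v hv.1 yb hybT h
      · intro h
        have h2 := hM.injr v hv.1 yb hybT h
        exact hv.2 (by rw [h2]; exact hybτ))
    (by
      intro t htL htR htF
      have hin : ∀ z ∈ T1, l z < t ∧ t < r z := by
        intro z hz
        exact ⟨lt_of_le_of_lt (hyamax z hz) htL, lt_of_lt_of_le htR (hybmin z hz)⟩
      obtain ⟨v, hv, hv2⟩ := hB t (by
        intro z hz
        by_cases hzt : τ z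
        · have h2 := hin z ⟨hz, hzt⟩
          exact ⟨ne_of_gt h2.1, ne_of_lt h2.2⟩
        · exact htF z ⟨hz, hzt⟩)
      have hvt : ¬ τ v := by
        intro h
        exact hv2 ⟨fun _ => h, fun _ => hin v ⟨hv, h⟩⟩
      refine ⟨v, ⟨hv, hvt⟩, ?_⟩
      by_contra h
      exact hv2 ⟨fun h2 => absurd h2 h, fun h2 => absurd h2 hvt⟩)
  have hyT : ∀ i ≤ m, y i ∈ T := fun i hi => (hyF i hi).1
  have hyτ : ∀ i ≤ m, ¬ τ (y i) := fun i hi => (hyF i hi).2
  -- monotonicity
  have hl : ∀ i < m, l (y i) < l (y (i + 1)) := by
    intro i hi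
    rcases i with _ | i
    · exact lt_trans hy0.1 (hch 0 hi).2.2.2
    · exact lt_trans (hch i (by omega)).1 (hgap i (by omega))
  have hr : ∀ i < m, r (y i) < r (y (i + 1)) := fun i hi => (hch i hi).2.1
  have hlm : ∀ i j, i < j → j ≤ m → l (y i) < l (y j) := pos_mono (fun i => l (y i)) m hl
  have hrm : ∀ i j, i < j → j ≤ m → r (y i) < r (y j) := pos_mono (fun i => r (y i)) m hr
  -- adjacency inside the chain
  have hyy : ∀ i j, i < j → j ≤ m → (G.Adj (y i) (y j) ↔ j = i + 1) := by
    intro i j hij hj
    rw [hM.adj (y i) (hyT i (by omega)) (y j) (hyT j hj)]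
    constructor
    · intro h
      by_contra hne2
      have h2 : i + 2 ≤ j := by omega
      have h3 : l (y (i + 2)) ≤ l (y j) := by
        rcases Nat.lt_or_ge (i + 2) j with h4 | h4
        · exact (hlm (i + 2) j h4 hj).le
        · have h5 : i + 2 = j := by omega
          rw [h5]
      have h6 := hgap i (by omega)
      have h7 := hlm i j hij hj
      rcases h with ⟨h8, h9, h10⟩ | ⟨h8, h9, h10⟩ <;> linarith
    · rintro rfl
      exact Or.inl ⟨hl i (by omega), (hch i (by omega)).1, hr i (by omega)⟩
  -- the ends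
  have hra : r (y 0) < r ya := by
    by_contra h
    rw [not_lt] at h
    have hne2 : r ya ≠ r (y 0) := by
      intro h2
      have h3 := hM.injr ya hyaT (y 0) (hyT 0 (Nat.zero_le m)) h2
      exact hyτ 0 (Nat.zero_le m) (by rw [← h3]; exact hyaτ)
    exact hyτ 0 (Nat.zero_le m) (pos_nest G T l r τ hM hC (y 0) ya (hyT 0 (Nat.zero_le m)) hyaT
      ⟨hy0.1, lt_of_le_of_ne h hne2⟩ hyaτ)
  have hlb : l yb < l (y m) := by
    by_contra h
    rw [not_lt] at h
    have hne2 : l (y m) ≠ l yb := by
      intro h2
      have h3 := hM.injl (y m) (hyT m le_rfl) yb hybT h2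
      exact hyτ m le_rfl (by rw [h3]; exact hybτ)
    exact hyτ m le_rfl (pos_nest G T l r τ hM hC (y m) yb (hyT m le_rfl) hybT
      ⟨lt_of_le_of_ne h hne2, hym.2⟩ hybτ)
  have hAdjA : G.Adj ya (y 0) :=
    ((hM.adj (y 0) (hyT 0 (Nat.zero_le m)) ya hyaT).2 (Or.inl ⟨hy0.1, hy0.2, hra⟩)).symm
  have hAdjB : G.Adj yb (y m) :=
    (hM.adj yb hybT (y m) (hyT m le_rfl)).2 (Or.inl ⟨hlb, hym.1, hym.2⟩)
  have hneA : ∀ i ≤ m, ya ≠ y i := by
    intro i hi h
    exact hyτ i hi (by rw [← h]; exact hyaτ)
  have hneB : ∀ i ≤ m, yb ≠ y i := by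
    intro i hi h
    exact hyτ i hi (by rw [← h]; exact hybτ)
  have hin : ∀ i, 1 ≤ i → l ya < l (y i) ∨ m < i := by
    intro i hi
    rcases Nat.lt_or_ge m i with h | h
    · exact Or.inr h
    · left
      obtain ⟨j, rfl⟩ : ∃ j, i = j + 1 := ⟨i - 1, by omega⟩
      exact (hch j (by omega)).2.2.2
  have hLi : ∀ i, 1 ≤ i → i ≤ m → l ya < l (y i) := by
    intro i hi him
    rcases hin i hi with h | h
    · exact h
    · omega
  have hRi : ∀ i, i < m → r (y i) < r yb := fun i hi => (hch i hi).2.2.1
  -- the final assembly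
  have hfinal : ∀ L : List V, IC G L → 4 ≤ L.length →
      (∀ x ∈ L, x = ya ∨ x = yb ∨ ∃ i ≤ m, x = y i) → ya ∈ L → yb ∈ L → (∀ i ≤ m, y i ∈ L) →
      (ya = yb ∨ G.Adj ya yb) →
      (∀ i, 1 ≤ i → i ≤ m → ¬ G.Adj ya (y i) → Ins l r ya (y i)) →
      (∀ i, i < m → ¬ G.Adj yb (y i) → Ins l r yb (y i)) →
      ∃ L : List V, IC G L ∧ 4 ≤ L.length ∧ (∀ y ∈ L, y ∈ T) ∧
        (∀ y ∈ L, ∀ y' ∈ L, y' ∈ Far G y → (τ y ↔ Ins l r y y')) ∧
        ∀ t : ℝ, (∀ y ∈ L, t ≠ l y ∧ t ≠ r y) → ∃ y ∈ L, ¬ ((l y < t ∧ t < r y) ↔ τ y) := by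
    intro L hIC hlen hmem haL hbL hyL hab hAin hBin
    have hT : ∀ x ∈ L, x ∈ T := by
      intro x hx
      rcases hmem x hx with rfl | rfl | ⟨i, hi, rfl⟩
      · exact hyaT
      · exact hybT
      · exact hyT i hi
    refine ⟨L, hIC, hlen, hT, ?_, ?_⟩
    · intro u hu u' hu' hfar
      have hfar1 : u' ≠ u := hfar.1
      have hfar2 : ¬ G.Adj u u' := hfar.2
      by_cases huτ : τ u
      · refine ⟨fun _ => ?_, fun _ => huτ⟩
        have hu'y : ∃ i ≤ m, u' = y i := by
          rcases hmem u' hu' with h | h | h
          · exfalso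
            rcases hmem u hu with h2 | h2 | ⟨i, hi, h2⟩
            · exact hfar1 (by rw [h, h2])
            · rcases hab with h3 | h3
              · exact hfar1 (by rw [h, h2, h3])
              · exact hfar2 (by rw [h, h2]; exact h3.symm)
            · exact hyτ i hi (by rw [← h2]; exact huτ)
          · exfalso
            rcases hmem u hu with h2 | h2 | ⟨i, hi, h2⟩
            · rcases hab with h3 | h3
              · exact hfar1 (by rw [h, h2, h3])
              · exact hfar2 (by rw [h, h2]; exact h3)
            · exact hfar1 (by rw [h, h2])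
            · exact hyτ i hi (by rw [← h2]; exact huτ)
          · exact h
        obtain ⟨i, hi, rfl⟩ := hu'y
        rcases hmem u hu with rfl | rfl | ⟨j, hj, h2⟩
        · rcases Nat.eq_zero_or_pos i with h3 | h3
          · subst h3
            exact absurd hAdjA hfar2
          · exact hAin i h3 hi hfar2
        · rcases Nat.lt_or_ge i m with h3 | h3
          · exact hBin i h3 hfar2
          · have h4 : i = m := by omega
            subst h4
            exact absurd hAdjB hfar2
        · exact absurd (by rw [← h2]; exact huτ) (hyτ j hj)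
      · refine ⟨fun h => absurd h huτ, fun h => ?_⟩
        by_cases hu'τ : τ u'
        · exact pos_nest G T l r τ hM hC u u' (hT u hu) (hT u' hu') h hu'τ
        · exfalso
          have hc : ∀ x ∈ L, ¬ τ x → ∃ i ≤ m, x = y i := by
            intro x hx hxτ
            rcases hmem x hx with h2 | h2 | h2
            · exact absurd (by rw [h2]; exact hyaτ) hxτ
            · exact absurd (by rw [h2]; exact hybτ) hxτ
            · exact h2
          obtain ⟨i, hi, rfl⟩ := hc u hu huτ
          obtain ⟨j, hj, rfl⟩ := hc u' hu' hu'τ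
          have h3 := h.1
          have h4 := h.2
          rcases Nat.lt_trichotomy i j with h5 | h5 | h5
          · linarith [hrm i j h5 hj]
          · exact hfar1 (by rw [h5])
          · linarith [hlm j i h5 hi]
    · intro t ht
      rcases lt_trichotomy t (l ya) with h2 | h2 | h2
      · refine ⟨ya, haL, fun h => ?_⟩
        have h3 := (h.2 hyaτ).1
        linarith
      · exact absurd h2 (ht ya haL).1
      rcases lt_trichotomy t (r yb) with h3 | h3 | h3
      · have hex : ∃ i, i ≤ m ∧ t < r (y i) := ⟨m, le_rfl, lt_trans h3 hym.2⟩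
        classical
        have hspec := Nat.find_spec hex
        have hmin : ∀ j < Nat.find hex, ¬ (j ≤ m ∧ t < r (y j)) := fun j hj => Nat.find_min hex hj
        set i := Nat.find hex with hi
        refine ⟨y i, hyL i hspec.1, fun h => ?_⟩
        have h4 : l (y i) < t := by
          rcases Nat.eq_zero_or_pos i with h5 | h5
          · rw [h5]
            exact lt_trans hy0.1 h2
          · obtain ⟨j, hj⟩ : ∃ j, i = j + 1 := ⟨i - 1, by omega⟩
            have h6 := hmin j (by omega)
            have h7 : r (y j) ≤ t := by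
              by_contra h8
              rw [not_le] at h8
              exact h6 ⟨by omega, h8⟩
            have h8 := (hch j (by omega)).1
            rw [hj]
            linarith
        exact hyτ i hspec.1 (h.1 ⟨h4, hspec.2⟩)
      · exact absurd h3 (ht yb hbL).2
      · refine ⟨yb, hbL, fun h => ?_⟩
        have h4 := (h.2 hybτ).2
        linarith
  -- the two cases
  by_cases hab : ya = yb
  · -- one vertex
    rcases Nat.lt_or_ge m 2 with hm | hm
    · exfalso
      rcases Nat.lt_or_ge m 1 with hm1 | hm1
      · have h2 : m = 0 := by omega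
        subst h2
        have h3 := hym.2
        rw [← hab] at h3
        linarith
      · have h2 : m = 1 := by omega
        subst h2
        rw [← hab] at hAdjB
        exact hTF ya (y 0) (y 1) hAdjA ((hyy 0 1 (by omega) le_rfl).2 rfl) hAdjB
    · have hmid : ∀ i, 1 ≤ i → i < m → Ins l r ya (y i) := by
        intro i hi1 hi2
        refine ⟨hLi i hi1 (by omega), ?_⟩
        have h3 := hRi i hi2
        rw [← hab] at h3
        exact h3
      have hAdjM : G.Adj ya (y m) := by
        rw [← hab] at hAdjB
        exact hAdjB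
      have hadjA : ∀ i ≤ m, (G.Adj ya (y i) ↔ i = 0 ∨ i = m) := by
        intro i hi
        constructor
        · intro h
          by_contra h2
          have h3 := hmid i (by omega) (by omega)
          rw [hM.adj ya hyaT (y i) (hyT i hi)] at h
          have h4 := h3.1
          have h5 := h3.2
          rcases h with ⟨h6, h7, h8⟩ | ⟨h6, h7, h8⟩ <;> linarith
        · rintro (rfl | rfl)
          · exact hAdjA
          · exact hAdjM
      set z : ℕ → V := fun i => if i = 0 then ya else y (i - 1) with hz
      have hz0 : z 0 = ya := by simp [hz]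
      have hzs : ∀ i, z (i + 1) = y i := by
        intro i
        simp [hz]
      have hIC : IC G ((List.range (m + 2)).map z) := by
        apply pos_IC G (m + 2) z (by omega)
        · intro i j hij hj
          obtain ⟨j, rfl⟩ : ∃ j', j = j' + 1 := ⟨j - 1, by omega⟩
          rcases i with _ | i
          · rw [hz0, hzs]
            exact hneA j (by omega)
          · rw [hzs, hzs]
            intro h
            have h2 := hlm i j (by omega) (by omega)
            rw [h] at h2
            exact lt_irrefl _ h2
        · intro i j hij hj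
          obtain ⟨j, rfl⟩ : ∃ j', j = j' + 1 := ⟨j - 1, by omega⟩
          rcases i with _ | i
          · rw [hz0, hzs, hadjA j (by omega)]
            omega
          · rw [hzs, hzs, hyy i j (by omega) (by omega)]
            omega
      refine hfinal _ hIC ?_ ?_ ?_ ?_ ?_ (Or.inl hab) ?_ ?_
      · simp only [List.length_map, List.length_range]
        omega
      · intro x hx
        obtain ⟨i, hi, rfl⟩ := List.mem_map.1 hx
        rw [List.mem_range] at hi
        rcases i with _ | i
        · exact Or.inl hz0
        · exact Or.inr (Or.inr ⟨i, by omega, hzs i⟩)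
      · exact List.mem_map.2 ⟨0, List.mem_range.2 (by omega), hz0⟩
      · rw [← hab]
        exact List.mem_map.2 ⟨0, List.mem_range.2 (by omega), hz0⟩
      · intro i hi
        exact List.mem_map.2 ⟨i + 1, List.mem_range.2 (by omega), hzs i⟩
      · intro i hi1 hi2 hna
        rcases Nat.lt_or_ge i m with h3 | h3
        · exact hmid i hi1 h3
        · exact absurd ((hadjA i hi2).2 (Or.inr (by omega))) hna
      · intro i hi hna
        rw [← hab] at hna ⊢
        rcases Nat.eq_zero_or_pos i with h3 | h3
        · exact absurd ((hadjA i (by omega)).2 (Or.inl h3)) hna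
        · exact hmid i h3 hi
  · -- two vertices
    have hlab : l yb < l ya := by
      rcases lt_or_eq_of_le (hyamax yb hyb) with h | h
      · exact h
      · exact absurd (hM.injl yb hybT ya hyaT h).symm hab
    have hrab : r yb < r ya := by
      rcases lt_or_eq_of_le (hybmin ya hya) with h | h
      · exact h
      · exact absurd (hM.injr yb hybT ya hyaT h).symm hab
    have hAB : G.Adj yb ya :=
      (hM.adj yb hybT ya hyaT).2 (Or.inl ⟨hlab, hLR, hrab⟩)
    have hm1 : 1 ≤ m := by
      by_contra h
      have h2 : m = 0 := by omega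
      subst h2
      exact hTF yb (y 0) ya hAdjB hAdjA.symm hAB
    have hb0 : Ins l r yb (y 0) := by
      have hr0 := hRi 0 hm1
      refine ⟨?_, hr0⟩
      by_contra h
      rw [not_lt] at h
      have hne2 : l (y 0) ≠ l yb := by
        intro h2
        have h3 := hM.injl (y 0) (hyT 0 (by omega)) yb hybT h2
        exact hneB 0 (by omega) h3.symm
      have h4 : l (y 0) < l yb := lt_of_le_of_ne h hne2
      have h5 : G.Adj (y 0) yb :=
        (hM.adj (y 0) (hyT 0 (by omega)) yb hybT).2
          (Or.inl ⟨h4, lt_trans hlab hy0.2, hr0⟩)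
      exact hTF ya (y 0) yb hAdjA h5 hAB.symm
    have ham : Ins l r ya (y m) := by
      have hlm0 := hLi m hm1 le_rfl
      refine ⟨hlm0, ?_⟩
      by_contra h
      rw [not_lt] at h
      have hne2 : r ya ≠ r (y m) := by
        intro h2
        exact hneA m le_rfl (hM.injr ya hyaT (y m) (hyT m le_rfl) h2)
      have h4 : r ya < r (y m) := lt_of_le_of_ne h hne2
      have h5 : G.Adj ya (y m) :=
        (hM.adj ya hyaT (y m) (hyT m le_rfl)).2
          (Or.inl ⟨hlm0, lt_trans hym.1 hrab, h4⟩)
      exact hTF yb ya (y m) hAB h5 hAdjB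
    have hmidA : ∀ i, 1 ≤ i → i ≤ m → Ins l r ya (y i) := by
      intro i hi1 hi2
      rcases Nat.lt_or_ge i m with h3 | h3
      · exact ⟨hLi i hi1 hi2, lt_trans (hRi i h3) hrab⟩
      · have h4 : i = m := by omega
        rw [h4]
        exact ham
    have hmidB : ∀ i, i < m → Ins l r yb (y i) := by
      intro i hi
      rcases Nat.eq_zero_or_pos i with h3 | h3
      · rw [h3]
        exact hb0
      · exact ⟨lt_trans hlab (hLi i h3 (by omega)), hRi i hi⟩
    have hadjA : ∀ i ≤ m, (G.Adj ya (y i) ↔ i = 0) := by
      intro i hi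
      constructor
      · intro h
        by_contra h2
        have h3 := hmidA i (by omega) hi
        rw [hM.adj ya hyaT (y i) (hyT i hi)] at h
        have h4 := h3.1
        have h5 := h3.2
        rcases h with ⟨h6, h7, h8⟩ | ⟨h6, h7, h8⟩ <;> linarith
      · rintro rfl
        exact hAdjA
    have hadjB : ∀ i ≤ m, (G.Adj yb (y i) ↔ i = m) := by
      intro i hi
      constructor
      · intro h
        by_contra h2
        have h3 := hmidB i (by omega)
        rw [hM.adj yb hybT (y i) (hyT i hi)] at h
        have h4 := h3.1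
        have h5 := h3.2
        rcases h with ⟨h6, h7, h8⟩ | ⟨h6, h7, h8⟩ <;> linarith
      · rintro rfl
        exact hAdjB
    set z : ℕ → V := fun i => if i = 0 then yb else if i = 1 then ya else y (i - 2) with hz
    have hz0 : z 0 = yb := by simp [hz]
    have hz1 : z 1 = ya := by simp [hz]
    have hzs : ∀ i, z (i + 2) = y i := by
      intro i
      simp [hz]
    have hIC : IC G ((List.range (m + 3)).map z) := by
      apply pos_IC G (m + 3) z (by omega)
      · intro i j hij hj
        rcases i with _ | _ | i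
        · rw [hz0]
          rcases j with _ | _ | j
          · omega
          · rw [zero_add, hz1]
            exact fun h => hab h.symm
          · rw [hzs]
            exact hneB j (by omega)
        · rw [zero_add, hz1]
          rcases j with _ | _ | j
          · omega
          · omega
          · rw [hzs]
            exact hneA j (by omega)
        · rcases j with _ | _ | j
          · omega
          · omega
          · rw [hzs, hzs]
            intro h
            have h2 := hlm i j (by omega) (by omega)
            rw [h] at h2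
            exact lt_irrefl _ h2
      · intro i j hij hj
        rcases i with _ | _ | i
        · rw [hz0]
          rcases j with _ | _ | j
          · omega
          · rw [zero_add, hz1]
            exact ⟨fun _ => Or.inl rfl, fun _ => hAB⟩
          · rw [hzs, hadjB j (by omega)]
            omega
        · rw [zero_add, hz1]
          rcases j with _ | _ | j
          · omega
          · omega
          · rw [hzs, hadjA j (by omega)]
            omega
        · rcases j with _ | _ | j
          · omega
          · omega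
          · rw [hzs, hzs, hyy i j (by omega) (by omega)]
            omega
    refine hfinal _ hIC ?_ ?_ ?_ ?_ ?_ (Or.inr hAB.symm) ?_ ?_
    · simp only [List.length_map, List.length_range]
      omega
    · intro x hx
      obtain ⟨i, hi, rfl⟩ := List.mem_map.1 hx
      rw [List.mem_range] at hi
      rcases i with _ | _ | i
      · exact Or.inr (Or.inl hz0)
      · exact Or.inl hz1
      · exact Or.inr (Or.inr ⟨i, by omega, hzs i⟩)
    · exact List.mem_map.2 ⟨1, List.mem_range.2 (by omega), hz1⟩
    · exact List.mem_map.2 ⟨0, List.mem_range.2 (by omega), hz0⟩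
    · intro i hi
      exact List.mem_map.2 ⟨i + 2, List.mem_range.2 (by omega), hzs i⟩
    · intro i hi1 hi2 _
      exact hmidA i hi1 hi2
    · intro i hi _
      exact hmidB i hi

end Pool.Agent.Helper64.CT
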